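import Mathlib
import Pool.Agent.helper64.NQ.Spec

set_option autoImplicit false

namespace Pool.Agent.NQ

open Pool.Agent.helper58.DC Pool.Agent.DI Pool.Agent.DR

theorem TRF_mem (Q : Type) [Group Q] (hc : ∀ a b : Q, a * b = b * a) (m : ℕ) (x : Q) :
    x ∈ tor Q hc m ↔ x ^ m = 1 := Iff.rfl

theorem TRF_sup (Q : Type) [Group Q] (hc : ∀ a b : Q, a * b = b * a) (m m' : ℕ)
    (h : m.Coprime m') : tor Q hc m ⊔ tor Q hc m' = tor Q hc (m * m') := by
  apply le_antisymm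
  · apply sup_le
    · intro x hx
      rw [TRF_mem] at hx ⊢
      rw [pow_mul, hx, one_pow]
    · intro x hx
      rw [TRF_mem] at hx ⊢
      rw [mul_comm, pow_mul, hx, one_pow]
  · intro x hx
    rw [TRF_mem] at hx
    obtain ⟨u, v, huv⟩ := (Nat.isCoprime_iff_coprime.2 h : IsCoprime (m : ℤ) (m' : ℤ))
    have hx1 : x = (x ^ m') ^ v * (x ^ m) ^ u := by
      rw [← zpow_natCast x m', ← zpow_natCast x m, ← zpow_mul, ← zpow_mul, ← zpow_add,
        show (m' : ℤ) * v + m * u = 1 by linarith [huv, mul_comm u (m : ℤ), mul_comm v (m' : ℤ)],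
        zpow_one]
    rw [hx1]
    apply Subgroup.mul_mem_sup
    · apply Subgroup.zpow_mem
      rw [TRF_mem, ← pow_mul, mul_comm, hx]
    · apply Subgroup.zpow_mem
      rw [TRF_mem, ← pow_mul, hx]

theorem TRF_inf (Q : Type) [Group Q] (hc : ∀ a b : Q, a * b = b * a) (m m' : ℕ)
    (h : m.Coprime m') : Disjoint (tor Q hc m) (tor Q hc m') := by
  rw [Subgroup.disjoint_def]
  intro x hx hx'
  rw [TRF_mem] at hx hx'
  have h1 : orderOf x ∣ m := orderOf_dvd_of_pow_eq_one hx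
  have h2 : orderOf x ∣ m' := orderOf_dvd_of_pow_eq_one hx'
  have h3 : orderOf x ∣ 1 := by
    rw [← h]
    exact Nat.dvd_gcd h1 h2
  exact orderOf_eq_one_iff.1 (Nat.dvd_one.1 h3)

theorem TRF_prime (Q : Type) [Group Q] [Finite Q] (hc : ∀ a b : Q, a * b = b * a) (m q : ℕ)
    (hq : q.Prime) (h : q ∣ Nat.card (tor Q hc m)) : q ∣ m := by
  haveI : Fact q.Prime := ⟨hq⟩
  obtain ⟨x, hx⟩ := exists_prime_orderOf_dvd_card' (G := tor Q hc m) q h
  have h1 : x ^ m = 1 := by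
    apply Subtype.ext
    rw [Subgroup.coe_pow]
    exact x.2
  rw [← hx]
  exact orderOf_dvd_of_pow_eq_one h1

theorem TRF_card (Q : Type) [Group Q] [Finite Q] (hc : ∀ a b : Q, a * b = b * a) (n : ℕ)
    (hs : Squarefree n) (hB : Bic n Q) (m : ℕ) (hm : m ∣ n) :
    Nat.card (tor Q hc m) = m ^ 2 := by
  obtain ⟨m', rfl⟩ := hm
  obtain ⟨hcop, -, -⟩ := Nat.squarefree_mul_iff.1 hs
  have hn0 : m * m' ≠ 0 := hs.ne_zero
  have hm0 : 0 < m := Nat.pos_of_ne_zero (left_ne_zero_of_mul hn0)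
  have hm0' : 0 < m' := Nat.pos_of_ne_zero (right_ne_zero_of_mul hn0)
  have htop : tor Q hc (m * m') = ⊤ := by
    rw [eq_top_iff]
    intro x _
    exact hB.2.2 x
  have hnorm : (tor Q hc m').Normal := ⟨fun a ha g => by
    rw [hc g a, mul_inv_cancel_right]
    exact ha⟩
  have hcomp : Subgroup.IsComplement' (tor Q hc m) (tor Q hc m') := by
    apply Subgroup.isComplement'_of_disjoint_and_mul_eq_univ (TRF_inf Q hc m m' hcop)
    rw [← Subgroup.mul_normal, TRF_sup Q hc m m' hcop, htop]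
    rfl
  have hprod : Nat.card (tor Q hc m) * Nat.card (tor Q hc m') = m ^ 2 * m' ^ 2 := by
    rw [hcomp.card_mul, hB.2.1, mul_pow]
  have hc1 : (Nat.card (tor Q hc m)).Coprime (m' ^ 2) := by
    apply Nat.Coprime.pow_right
    apply Nat.Coprime.symm
    apply Nat.coprime_of_dvd
    intro q hq h1 h2
    exact hq.one_lt.ne' (Nat.dvd_one.1 (by
      rw [← hcop]
      exact Nat.dvd_gcd (TRF_prime Q hc m q hq h2) h1))
  have hc2 : (Nat.card (tor Q hc m')).Coprime (m ^ 2) := by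
    apply Nat.Coprime.pow_right
    apply Nat.Coprime.symm
    apply Nat.coprime_of_dvd
    intro q hq h1 h2
    exact hq.one_lt.ne' (Nat.dvd_one.1 (by
      rw [← hcop]
      exact Nat.dvd_gcd h1 (TRF_prime Q hc m' q hq h2)))
  have hd1 : Nat.card (tor Q hc m) ∣ m ^ 2 := by
    apply hc1.dvd_of_dvd_mul_right
    rw [← hprod]
    exact Dvd.intro _ rfl
  have hd2 : Nat.card (tor Q hc m') ∣ m' ^ 2 := by
    apply hc2.dvd_of_dvd_mul_left
    rw [← hprod]
    exact Dvd.intro_left _ rfl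
  have hl1 : Nat.card (tor Q hc m) ≤ m ^ 2 := Nat.le_of_dvd (pow_pos hm0 2) hd1
  have hl2 : Nat.card (tor Q hc m') ≤ m' ^ 2 := Nat.le_of_dvd (pow_pos hm0' 2) hd2
  apply le_antisymm hl1
  by_contra hlt
  rw [not_le] at hlt
  have : Nat.card (tor Q hc m) * Nat.card (tor Q hc m') < m ^ 2 * m' ^ 2 :=
    Nat.mul_lt_mul_of_lt_of_le hlt hl2 (pow_pos hm0' 2)
  omega

theorem TRF : TRF_stmt := by
  intro Q _ _ hc n hs hB
  refine ⟨?_, fun m hm => TRF_card Q hc n hs hB m hm, ?_⟩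
  · rw [eq_top_iff]
    intro x _
    exact hB.2.2 x
  · intro m m' hmm
    have h1 : Squarefree (m * m') := hs.squarefree_of_dvd hmm
    exact TRF_sup Q hc m m' (Nat.squarefree_mul_iff.1 h1).1

end Pool.Agent.NQ
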